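import Mathlib

set_option autoImplicit false

namespace Pool.Agent.Results.MP_b8ee47_co.Factor

open Finset

/-- The tropical monomial `c a + a · x`. -/
def term {n : ℕ} (c : (Fin n → ℕ) → ℝ) (a : Fin n → ℕ) (x : Fin n → ℝ) : ℝ :=
  c a + ∑ i, (a i : ℝ) * x i

/-- The tropical polynomial with exponent set `A` and coefficients `c`, as a function. -/
def trop {n : ℕ} (A : Finset (Fin n → ℕ)) (hA : A.Nonempty) (c : (Fin n → ℕ) → ℝ)
    (x : Fin n → ℝ) : ℝ := A.sup' hA fun a => term c a x

/-- The convex hull in `ℝⁿ` of a set of exponents. -/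
def hull {n : ℕ} (S : Set (Fin n → ℕ)) : Set (Fin n → ℝ) :=
  convexHull ℝ ((fun a i => (a i : ℝ)) '' S)

/-- A unit: the whole Newton polytope is a cell of the regular subdivision (the cell dual to `x`
is the hull of the exponents whose monomials attain the maximum at `x`). -/
def IsTropUnit {n : ℕ} (f : (Fin n → ℝ) → ℝ) : Prop :=
  ∃ (A : Finset (Fin n → ℕ)) (hA : A.Nonempty) (c : (Fin n → ℕ) → ℝ), f = trop A hA c ∧
    ∃ x, hull {a | a ∈ A ∧ term c a x = trop A hA c x} = hull ↑A

theorem alt {n : ℕ} (A : Finset (Fin n → ℕ)) (c : (Fin n → ℕ) → ℝ) :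
    (∃ (α : ℝ) (x : Fin n → ℝ), ∀ a ∈ A, term c a x = α) ∨ ∃ w : A → ℝ, w ≠ 0 ∧ ∑ a, w a = 0 ∧
      ∀ x, 0 ≤ ∑ a, w a * term c a x := by
  classical
  let Φ : (ℝ × (Fin n → ℝ)) →ₗ[ℝ] (A → ℝ) :=
    { toFun := fun p a => p.1 - ∑ i, (a.1 i : ℝ) * p.2 i
      map_add' := fun p q => by ext a; simp [mul_add, sum_add_distrib]; ring
      map_smul' := fun r p => by ext a; simp [mul_sub, mul_sum, mul_left_comm] }
  rcases eq_top_or_lt_top (LinearMap.range Φ) with h | h
  · obtain ⟨p, hp⟩ := LinearMap.range_eq_top.1 h fun a => c a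
    exact Or.inl ⟨p.1, p.2, fun a ha => by
      have : p.1 - ∑ i, (a i : ℝ) * p.2 i = c a := congrFun hp ⟨a, ha⟩
      rw [term]; linarith⟩
  · obtain ⟨φ, h0, hφ⟩ := Submodule.exists_le_ker_of_lt_top _ h
    have e : ∀ v : A → ℝ, φ v = ∑ a, φ (Pi.single a 1) * v a := fun v => by
      rw [LinearMap.pi_apply_eq_sum_univ]
      refine sum_congr rfl fun a _ => ?_
      rw [smul_eq_mul, mul_comm]
      congr 2
      ext j
      simp [Pi.single_apply, eq_comm]
    have k : ∀ (α : ℝ) (x : Fin n → ℝ),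
        ∑ a : A, φ (Pi.single a 1) * (α - ∑ i, (a.1 i : ℝ) * x i) = 0 := fun α x =>
      (e _).symm.trans (hφ ⟨(α, x), rfl⟩)
    have k1 : ∑ a : A, φ (Pi.single a 1) = 0 := by simpa using k 1 0
    have k2 : ∀ x, ∑ a : A, φ (Pi.single a 1) * term c a x =
        ∑ a : A, φ (Pi.single a 1) * c a := fun x => by
      have := k 0 x
      simp only [zero_sub, mul_neg, sum_neg_distrib, neg_eq_zero] at this
      simp only [term, mul_add, sum_add_distrib, this, add_zero]
    have n0 : (fun a : A => φ (Pi.single a 1)) ≠ 0 := fun h => h0 (LinearMap.ext fun v => by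
      rw [e]; simp [congrFun h])
    right
    rcases le_total 0 (∑ a : A, φ (Pi.single a 1) * c a) with h | h
    · exact ⟨_, n0, k1, fun x => k2 x ▸ h⟩
    · exact ⟨-_, neg_ne_zero.2 n0, by simp only [Pi.neg_apply, sum_neg_distrib, k1, neg_zero],
        fun x => by simp only [Pi.neg_apply, neg_mul, sum_neg_distrib, k2]; linarith⟩

theorem mem_closure {n : ℕ} (c : (Fin n → ℕ) → ℝ) (A : Finset (Fin n → ℕ)) (hA : A.Nonempty) :
    trop A hA c ∈ AddSubgroup.closure {f | IsTropUnit f} := by
  classical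
  induction A using Finset.strongInduction with
  | H A ih =>
  rcases alt A c with ⟨α, x, h⟩ | ⟨w, w0, w1, w2⟩
  · refine AddSubgroup.subset_closure ⟨A, hA, c, rfl, x, congrArg hull (Set.ext fun a => ?_)⟩
    refine and_iff_left_of_imp fun ha => ?_
    rw [h a ha, trop, sup'_congr hA rfl h, sup'_const]
  · let P := A.filter fun a => ∃ h : a ∈ A, w ⟨a, h⟩ < 0
    have hP : ∀ a : A, a.1 ∈ P ↔ w a < 0 := fun a => by simp [P]
    have ex : ∃ a, w a < 0 := by
      by_contra h
      push Not at h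
      exact w0 (funext fun a => (sum_eq_zero_iff_of_nonneg fun a _ => h a).1 w1 a (mem_univ a))
    have hB : (A \ P).Nonempty := by
      by_contra h
      have : ∀ a, w a < 0 := fun a => (hP a).1 (by
        by_contra h'; exact h ⟨a, mem_sdiff.2 ⟨a.2, h'⟩⟩)
      exact (sum_neg (fun a _ => this a) ⟨ex.choose, mem_univ _⟩).ne w1
    let F : Finset (Fin n → ℕ) → (Fin n → ℝ) → ℝ := fun S =>
      trop (A \ P ∪ S) (hB.mono subset_union_left) c
    have key : ∑ S ∈ P.powerset, (-1 : ℤ) ^ S.card • F S = 0 := by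
      ext x
      obtain ⟨a, ha, hle⟩ : ∃ a ∈ P, term c a x ≤ trop (A \ P) hB c x := by
        by_contra h
        push Not at h
        have : ∑ a : A, w a * (term c a x - trop (A \ P) hB c x) < 0 := by
          refine sum_neg' (fun a _ => ?_) ⟨ex.choose, mem_univ _,
            mul_neg_of_neg_of_pos ex.choose_spec (sub_pos.2 (h _ ((hP _).2 ex.choose_spec)))⟩
          by_cases ha : w a < 0
          · exact (mul_neg_of_neg_of_pos ha (sub_pos.2 (h _ ((hP _).2 ha)))).le
          · exact mul_nonpos_of_nonneg_of_nonpos (not_lt.1 ha) (sub_nonpos.2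
              (le_sup' (fun a => term c a x) (mem_sdiff.2 ⟨a.2, mt (hP _).1 ha⟩)))
        simp only [mul_sub, sum_sub_distrib, ← sum_mul, w1, zero_mul, sub_zero] at this
        exact (w2 x).not_gt this
      rw [← insert_erase ha, Finset.sum_apply, sum_powerset_insert (notMem_erase a P), ← sum_add_distrib]
      refine sum_eq_zero fun S hS => ?_
      have : F (insert a S) x = F S x := by
        simp only [F, trop, union_insert]
        rw [sup'_insert (hB.mono subset_union_left), sup_eq_right]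
        exact hle.trans (sup'_mono _ subset_union_left hB)
      rw [card_insert_of_notMem (fun h => notMem_erase a P (mem_powerset.1 hS h))]
      simp [this, pow_succ]
    rw [← add_sum_erase _ _ (mem_powerset_self P), add_eq_zero_iff_eq_neg] at key
    have m : (-1 : ℤ) ^ P.card • F P ∈ AddSubgroup.closure {f | IsTropUnit f} := by
      rw [key]
      refine neg_mem (sum_mem fun S hS => zsmul_mem (ih _ ?_ _) _)
      obtain ⟨h1, h2⟩ := mem_erase.1 hS
      obtain ⟨a, ha, ha'⟩ := exists_of_ssubset (lt_of_le_of_ne (mem_powerset.1 h2) h1)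
      exact ⟨union_subset sdiff_subset ((mem_powerset.1 h2).trans (filter_subset _ _)),
        fun h => by simpa [ha, ha'] using h (filter_subset _ _ ha)⟩
    have e : F P = trop A hA c := by
      have := sdiff_union_of_subset (filter_subset _ A : P ⊆ A)
      exact funext fun x => sup'_congr _ this fun _ _ => rfl
    rw [e] at m
    rcases neg_one_pow_eq_or ℤ P.card with h | h <;> simpa [h] using m

/-- Every tropical polynomial is rationally factorizable. -/
theorem result (n : ℕ) (A : Finset (Fin n → ℕ)) (hA : A.Nonempty) (c : (Fin n → ℕ) → ℝ) :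
    ∃ g h : Multiset ((Fin n → ℝ) → ℝ), (∀ u ∈ g, IsTropUnit u) ∧ (∀ u ∈ h, IsTropUnit u) ∧
      trop A hA c + g.sum = h.sum := by
  refine AddSubgroup.closure_induction (p := fun f _ => ∃ g h : Multiset ((Fin n → ℝ) → ℝ),
    (∀ u ∈ g, IsTropUnit u) ∧ (∀ u ∈ h, IsTropUnit u) ∧ f + g.sum = h.sum) ?_ ?_ ?_ ?_
    (mem_closure c A hA)
  · exact fun f hf => ⟨0, {f}, by simp, by simpa using hf, by simp⟩
  · exact ⟨0, 0, by simp⟩
  · rintro f f' - - ⟨g, h, h1, h2, e⟩ ⟨g', h', h1', h2', e'⟩
    refine ⟨g + g', h + h', fun u hu => (Multiset.mem_add.1 hu).elim (h1 u) (h1' u),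
      fun u hu => (Multiset.mem_add.1 hu).elim (h2 u) (h2' u), ?_⟩
    rw [Multiset.sum_add, Multiset.sum_add, ← e, ← e', add_add_add_comm]
  · rintro f - ⟨g, h, h1, h2, e⟩
    exact ⟨h, g, h2, h1, by rw [← e, neg_add_cancel_left]⟩

end Pool.Agent.Results.MP_b8ee47_co.Factor
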